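import Pool.Agent.T9h44.NK.SpecA
import Pool.Agent.T9h47.NK.Metric

/-!
# Project NK: polytopes with small positive inner product of adjacent vertices
-/

set_option autoImplicit false

open Set Finset
open scoped RealInnerProductSpace

namespace Pool.Agent.T9h40.NK

open Pool.Agent.T9h98.DC Pool.Agent.T9h44.NK

/-- the neighbours of a vertex and `v` span -/
theorem span_nb (hC : S_CONE) {d : ℕ} {P : Set (E (d + 1))} (hP : IsPolytope P) {v : E (d + 1)}
    (hv : Vx P v) {a : E (d + 1)} (h : ∀ y, Adj P v y → ⟪y - v, a⟫ = 0) : a = 0 := by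
  have h1 : ∀ x ∈ P, ⟪x - v, a⟫ = 0 := by
    intro x hx
    obtain ⟨S, c, hS, e⟩ := hC d P v hP hv x hx
    rw [e, sum_inner]
    refine Finset.sum_eq_zero fun y hy => ?_
    rw [inner_smul_left, h y (hS y hy).1, mul_zero]
  obtain ⟨x0, hx0⟩ := hP.2
  obtain ⟨r, hr, hball⟩ := Metric.mem_nhds_iff.1 (mem_interior_iff_mem_nhds.1 hx0)
  have hx0P : x0 ∈ P := interior_subset hx0
  set ε := r / (2 * (‖a‖ + 1)) with hε
  have hn : 0 ≤ ‖a‖ := norm_nonneg a
  have hε0 : 0 < ε := by positivity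
  have h2 : x0 + ε • a ∈ P := by
    apply hball
    rw [Metric.mem_ball, dist_eq_norm, add_sub_cancel_left, norm_smul, Real.norm_eq_abs,
      abs_of_pos hε0, hε, div_mul_eq_mul_div, div_lt_iff₀ (by positivity)]
    nlinarith
  have h3 := h1 _ h2
  have h4 := h1 _ hx0P
  have h5 : x0 + ε • a - v = (x0 - v) + ε • a := by abel
  rw [h5, inner_add_left, h4, zero_add, inner_smul_left] at h3
  have h6 : ⟪a, a⟫ = 0 := by
    rcases mul_eq_zero.1 h3 with h | h
    · exfalso
      have : ε = 0 := by simpa using h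
      linarith
    · exact h
  exact inner_self_eq_zero.1 h6

/-- at least `d + 1` neighbours -/
theorem card_nb (hC : S_CONE) {d : ℕ} {P : Set (E (d + 1))} (hP : IsPolytope P) {v : E (d + 1)}
    (hv : Vx P v) (A : Finset (E (d + 1))) (hA : ∀ y, Adj P v y → y ∈ A) : d + 1 ≤ A.card := by
  classical
  have h1 : Submodule.span ℝ ((A.image (fun y => y - v) : Finset (E (d + 1))) : Set (E (d + 1))) =
      ⊤ := by
    rw [← Submodule.orthogonal_eq_bot_iff, Submodule.eq_bot_iff]
    intro a ha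
    refine span_nb hC hP hv fun y hy => ?_
    rw [Submodule.mem_orthogonal] at ha
    exact ha (y - v) (Submodule.subset_span (Finset.mem_coe.2
      (Finset.mem_image.2 ⟨y, hA y hy, rfl⟩)))
  have h2 := finrank_span_finset_le_card (R := ℝ) (A.image (fun y => y - v))
  rw [Set.finrank, h1, finrank_top, finrank_euclideanSpace_fin] at h2
  exact h2.trans Finset.card_image_le

section

variable {d : ℕ} {P : Set (E (d + 1))} {c : ℝ}

open Classical in
/-- the non-neighbours -/
noncomputable def NN (P : Set (E (d + 1))) (S : Finset (E (d + 1))) (v : E (d + 1)) :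
    Finset (E (d + 1)) := S.filter (fun u => u ≠ v ∧ ¬ Adj P v u)

theorem mem_NN (S : Finset (E (d + 1))) (v u : E (d + 1)) :
    u ∈ NN P S v ↔ u ∈ S ∧ u ≠ v ∧ ¬ Adj P v u := by
  classical
  simp only [NN, Finset.mem_filter]

theorem star (hF : S_FACES) (hC : S_CONE) (hP : IsPolytope P) (hc0 : 0 < c) (hc : c < 1 / 4)
    (hU : UV P) (hE : EC c P) (hPC : PC c P) (S : Finset (E (d + 1)))
    (hS : ∀ v, v ∈ S ↔ Vx P v) (v : E (d + 1)) (hv : Vx P v) :
    ((NN P S v).card : ℝ) * (1 - 4 * c) ≤ 1 := by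
  classical
  obtain ⟨M, hM⟩ : ∃ M, M = NN P S v := ⟨_, rfl⟩
  rw [← hM]
  have hMS : ∀ u ∈ M, Vx P u ∧ u ≠ v ∧ ¬ Adj P v u := by
    intro u hu
    rw [hM, mem_NN] at hu
    exact ⟨(hS u).1 hu.1, hu.2⟩
  have vv : ⟪v, v⟫ = 1 := by rw [real_inner_self_eq_norm_sq, hU v hv]; norm_num
  obtain ⟨m, hm⟩ : ∃ m : ℝ, m = (M.card : ℝ) := ⟨_, rfl⟩
  rw [← hm]
  have hm0 : 0 ≤ m := by rw [hm]; positivity
  -- inner products with v
  have h1 : ∑ u ∈ M, ⟪v, u⟫ ≤ m * (2 * c - 1) := by
    rw [hm, ← nsmul_eq_mul]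
    refine Finset.sum_le_card_nsmul _ _ _ fun u hu => ?_
    obtain ⟨a1, a2, a3⟩ := hMS u hu
    exact Pool.Agent.T9h47.NK.kl hF hC hP (by linarith) hU hE hPC v u hv a1 a2.symm a3
  -- the double sum
  have h2 : ∑ u ∈ M, ∑ w ∈ M, ⟪u, w⟫ ≤ m * (1 + (m - 1) * c) := by
    rw [hm, ← nsmul_eq_mul]
    refine Finset.sum_le_card_nsmul _ _ _ fun u hu => ?_
    rw [← Finset.add_sum_erase M _ hu]
    have uu : ⟪u, u⟫ = 1 := by rw [real_inner_self_eq_norm_sq, hU u (hMS u hu).1]; norm_num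
    rw [uu]
    have h3 : ∑ w ∈ M.erase u, ⟪u, w⟫ ≤ ((M.erase u).card : ℝ) * c := by
      rw [← nsmul_eq_mul]
      refine Finset.sum_le_card_nsmul _ _ _ fun w hw => ?_
      exact hPC u w (hMS u hu).1 (hMS w (Finset.mem_of_mem_erase hw)).1
        (Finset.ne_of_mem_erase hw).symm
    have h4 : ((M.erase u).card : ℝ) = (M.card : ℝ) - 1 := by
      rw [Finset.card_erase_of_mem hu, Nat.cast_sub (Finset.card_pos.2 ⟨u, hu⟩), Nat.cast_one]
    rw [h4] at h3
    linarith
  -- the square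
  have h5 : 0 ≤ ⟪(m * (1 - 2 * c)) • v + ∑ u ∈ M, u, (m * (1 - 2 * c)) • v + ∑ u ∈ M, u⟫ :=
    real_inner_self_nonneg
  have h6 : ⟪(m * (1 - 2 * c)) • v + ∑ u ∈ M, u, (m * (1 - 2 * c)) • v + ∑ u ∈ M, u⟫ =
      (m * (1 - 2 * c)) ^ 2 + 2 * (m * (1 - 2 * c)) * ∑ u ∈ M, ⟪v, u⟫ +
        ∑ u ∈ M, ∑ w ∈ M, ⟪u, w⟫ := by
    rw [inner_add_left, inner_add_right, inner_add_right, real_inner_smul_left,
      real_inner_smul_right, real_inner_smul_left, real_inner_smul_right, vv,
      real_inner_comm v (∑ u ∈ M, u), inner_sum, sum_inner]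
    have : ∀ u ∈ M, ⟪u, ∑ w ∈ M, w⟫ = ∑ w ∈ M, ⟪u, w⟫ := fun u _ => by rw [inner_sum]
    rw [Finset.sum_congr rfl this]
    ring
  rw [h6] at h5
  have h7 : 0 ≤ 2 * (m * (1 - 2 * c)) := by
    have : 0 ≤ 1 - 2 * c := by linarith
    positivity
  have h8 := mul_le_mul_of_nonneg_left h1 h7
  have h9 : 0 ≤ m * ((1 - c) * (1 - m * (1 - 4 * c))) := by nlinarith
  rcases hm0.eq_or_lt with h | h
  · rw [← h]
    norm_num
  · have h10 : 0 ≤ (1 - c) * (1 - m * (1 - 4 * c)) := by
      by_contra hcon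
      push Not at hcon
      have := mul_neg_of_pos_of_neg h hcon
      linarith
    have h11 : 0 ≤ 1 - m * (1 - 4 * c) := by
      by_contra hcon
      push Not at hcon
      have := mul_neg_of_pos_of_neg (by linarith : 0 < 1 - c) hcon
      linarith
    linarith

open Classical in
theorem bal (hU : UV P) (hE : EC c P) (S : Finset (E (d + 1)))
    (hS : ∀ v, v ∈ S ↔ Vx P v) (hsum : ∑ v ∈ S, v = 0) (v : E (d + 1)) (hv : Vx P v) :
    ((S.filter (fun u => Adj P v u)).card : ℝ) * c ≤ (NN P S v).card - 1 ∧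
      S.card = 1 + (S.filter (fun u => Adj P v u)).card + (NN P S v).card := by
  have vv : ⟪v, v⟫ = 1 := by rw [real_inner_self_eq_norm_sq, hU v hv]; norm_num
  have hvS : v ∈ S := (hS v).2 hv
  have hnv : ¬ Adj P v v := fun h => h.1 rfl
  have hA : (S.erase v).filter (fun u => Adj P v u) = S.filter (fun u => Adj P v u) := by
    ext u
    simp only [Finset.mem_filter, Finset.mem_erase]
    constructor
    · rintro ⟨⟨_, h2⟩, h3⟩
      exact ⟨h2, h3⟩
    · rintro ⟨h2, h3⟩
      exact ⟨⟨fun h => hnv (by rw [h] at h3; exact h3), h2⟩, h3⟩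
  have hN : (S.erase v).filter (fun u => ¬ Adj P v u) = NN P S v := by
    ext u
    rw [mem_NN]
    simp only [Finset.mem_filter, Finset.mem_erase]
    tauto
  constructor
  · have e0 : ∑ u ∈ S, ⟪v, u⟫ = 0 := by rw [← inner_sum, hsum, inner_zero_right]
    rw [← Finset.add_sum_erase S _ hvS, vv,
      ← Finset.sum_filter_add_sum_filter_not (S.erase v) (fun u => Adj P v u), hA, hN] at e0
    have h1 : ∑ u ∈ S.filter (fun u => Adj P v u), ⟪v, u⟫ =
        ((S.filter (fun u => Adj P v u)).card : ℝ) * c := by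
      rw [← nsmul_eq_mul, ← Finset.sum_const]
      exact Finset.sum_congr rfl fun u hu => hE v u (Finset.mem_filter.1 hu).2
    have h2 : -((NN P S v).card : ℝ) ≤ ∑ u ∈ NN P S v, ⟪v, u⟫ := by
      have : (NN P S v).card • (-1 : ℝ) ≤ ∑ u ∈ NN P S v, ⟪v, u⟫ := by
        refine Finset.card_nsmul_le_sum _ _ _ fun u hu => ?_
        rw [mem_NN] at hu
        have := abs_real_inner_le_norm v u
        rw [hU v hv, hU u ((hS u).1 hu.1), mul_one] at this
        exact (abs_le.1 this).1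
      rw [nsmul_eq_mul] at this
      linarith
    linarith
  · have h1 := Finset.card_filter_add_card_filter_not (s := S.erase v) (fun u => Adj P v u)
    rw [hA, hN, Finset.card_erase_of_mem hvS] at h1
    have h2 : 0 < S.card := Finset.card_pos.2 ⟨v, hvS⟩
    omega

/-- `0 < c < 1/5` is impossible in dimension at least 17 -/
theorem imp6 (hF : S_FACES) (hC : S_CONE) (hd : 16 ≤ d) (hP : IsPolytope P) (hc0 : 0 < c)
    (hc : c < 1 / 5) (hU : UV P) (hE : EC c P) (hPC : PC c P) (S : Finset (E (d + 1)))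
    (hS : ∀ v, v ∈ S ↔ Vx P v) (hsum : ∑ v ∈ S, v = 0) : False := by
  classical
  obtain ⟨-, -, -, -, hne, -⟩ := hF (d + 1) P hP.1
  obtain ⟨-, v, hv⟩ := hne (hP.2.mono interior_subset)
  have h1 := star hF hC hP hc0 (by linarith) hU hE hPC S hS v hv
  obtain ⟨h2, -⟩ := bal hU hE S hS hsum v hv
  have h3 := card_nb hC hP hv (S.filter (fun u => Adj P v u)) (fun y hy => by
    rw [Finset.mem_filter]
    exact ⟨(hS y).2 ((hF (d + 1) P hP.1).2.2.2.2.2.2.2.2.1 v y hy).2.1, hy⟩)
  have h4 : (17 : ℝ) ≤ ((S.filter (fun u => Adj P v u)).card : ℝ) := by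
    have : 17 ≤ (S.filter (fun u => Adj P v u)).card := by omega
    exact_mod_cast this
  have h5 : 17 * c ≤ (NN P S v).card - 1 := by
    have := mul_le_mul_of_nonneg_right h4 hc0.le
    linarith
  generalize (NN P S v).card = m at *
  have m4 : m ≤ 4 := by
    by_contra hcon
    push Not at hcon
    have : (5 : ℝ) ≤ m := by exact_mod_cast hcon
    nlinarith
  have m4' : (m : ℝ) ≤ 4 := by exact_mod_cast m4
  have m3 : m ≤ 3 := by
    by_contra hcon
    push Not at hcon
    have : (4 : ℝ) ≤ m := by exact_mod_cast hcon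
    nlinarith
  have m3' : (m : ℝ) ≤ 3 := by exact_mod_cast m3
  have m1 : m ≤ 1 := by
    by_contra hcon
    push Not at hcon
    have : (2 : ℝ) ≤ m := by exact_mod_cast hcon
    nlinarith
  have m1' : (m : ℝ) ≤ 1 := by exact_mod_cast m1
  linarith

theorem pair_of (s : Finset (E (d + 1))) (h : s.card = 2) (v : E (d + 1)) (hv : v ∈ s) :
    ∃ x, x ≠ v ∧ s = {v, x} := by
  classical
  have h1 : (s.erase v).card = 1 := by rw [Finset.card_erase_of_mem hv, h]
  obtain ⟨x, hx⟩ := Finset.card_eq_one.1 h1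
  refine ⟨x, ?_, ?_⟩
  · have : x ∈ s.erase v := by rw [hx]; exact Finset.mem_singleton_self x
    exact Finset.ne_of_mem_erase this
  · rw [← Finset.insert_erase hv, hx]

/-- `0 < c < 1/6` is impossible in dimension at least 5 -/
theorem imp7 (hF : S_FACES) (hC : S_CONE) (hd : 4 ≤ d) (hP : IsPolytope P) (hc0 : 0 < c)
    (hc : c < 1 / 6) (hU : UV P) (hE : EC c P) (hPC : PC c P) (S : Finset (E (d + 1)))
    (hS : ∀ v, v ∈ S ↔ Vx P v) (hsum : ∑ v ∈ S, v = 0) : False := by
  classical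
  obtain ⟨-, -, -, -, hne, -, -, -, hadj, -⟩ := hF (d + 1) P hP.1
  obtain ⟨-, v, hv⟩ := hne (hP.2.mono interior_subset)
  -- exactly two non-neighbours
  have htwo : ∀ v, Vx P v → (NN P S v).card = 2 := by
    intro v hv
    have h1 := star hF hC hP hc0 (by linarith) hU hE hPC S hS v hv
    obtain ⟨h2, -⟩ := bal hU hE S hS hsum v hv
    have h3 := card_nb hC hP hv (S.filter (fun u => Adj P v u)) (fun y hy => by
      rw [Finset.mem_filter]
      exact ⟨(hS y).2 (hadj v y hy).2.1, hy⟩)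
    have h4 : (1 : ℝ) ≤ ((S.filter (fun u => Adj P v u)).card : ℝ) := by
      have : 1 ≤ (S.filter (fun u => Adj P v u)).card := by omega
      exact_mod_cast this
    have h5 : c ≤ (NN P S v).card - 1 := by
      have := mul_le_mul_of_nonneg_right h4 hc0.le
      linarith
    generalize (NN P S v).card = m at *
    have m2 : m ≤ 2 := by
      by_contra hcon
      push Not at hcon
      have : (3 : ℝ) ≤ m := by exact_mod_cast hcon
      nlinarith
    have m1 : 2 ≤ m := by
      by_contra hcon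
      push Not at hcon
      have : m ≤ 1 := by omega
      have : (m : ℝ) ≤ 1 := by exact_mod_cast this
      linarith
    omega
  have hcard : 8 ≤ S.card := by
    obtain ⟨-, h2⟩ := bal hU hE S hS hsum v hv
    have h3 := card_nb hC hP hv (S.filter (fun u => Adj P v u)) (fun y hy => by
      rw [Finset.mem_filter]
      exact ⟨(hS y).2 (hadj v y hy).2.1, hy⟩)
    rw [htwo v hv] at h2
    omega
  have hsymm : ∀ a b, Vx P a → b ∈ NN P S a → a ∈ NN P S b := by
    intro a b ha hb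
    rw [mem_NN] at hb ⊢
    exact ⟨(hS a).2 ha, hb.2.1.symm, fun h => hb.2.2 (hadj b a h).2.2.1⟩
  have hvxN : ∀ a b, b ∈ NN P S a → Vx P b := by
    intro a b hb
    rw [mem_NN] at hb
    exact (hS b).1 hb.1
  -- v and its non-neighbours
  obtain ⟨u, u', huu', hNv⟩ := Finset.card_eq_two.1 (htwo v hv)
  have hu : u ∈ NN P S v := by rw [hNv]; simp
  have hu' : u' ∈ NN P S v := by rw [hNv]; simp
  have hVu := hvxN v u hu
  have hVu' := hvxN v u' hu'
  obtain ⟨x1, -, hNu⟩ := pair_of _ (htwo u hVu) v (hsymm v u hv hu)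
  obtain ⟨x2, -, hNu'⟩ := pair_of _ (htwo u' hVu') v (hsymm v u' hv hu')
  have hx1 : x1 ∈ NN P S u := by rw [hNu]; simp
  have hx2 : x2 ∈ NN P S u' := by rw [hNu']; simp
  have hVx1 := hvxN u x1 hx1
  have hVx2 := hvxN u' x2 hx2
  obtain ⟨y1, -, hNx1⟩ := pair_of _ (htwo x1 hVx1) u (hsymm u x1 hVu hx1)
  obtain ⟨y2, -, hNx2⟩ := pair_of _ (htwo x2 hVx2) u' (hsymm u' x2 hVu' hx2)
  obtain ⟨z, hzS, hz⟩ : ∃ z ∈ S, z ∉ ({v, u, u', x1, x2, y1, y2} : Finset (E (d + 1))) := by
    by_contra hcon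
    push Not at hcon
    have h1 : S ⊆ {v, u, u', x1, x2, y1, y2} := fun z hz => hcon z hz
    have h2 := Finset.card_le_card h1
    have h3 := Finset.card_insert_le v ({u, u', x1, x2, y1, y2} : Finset (E (d + 1)))
    have h4 := Finset.card_insert_le u ({u', x1, x2, y1, y2} : Finset (E (d + 1)))
    have h5 := Finset.card_insert_le u' ({x1, x2, y1, y2} : Finset (E (d + 1)))
    have h6 := Finset.card_insert_le x1 ({x2, y1, y2} : Finset (E (d + 1)))
    have h7 := Finset.card_insert_le x2 ({y1, y2} : Finset (E (d + 1)))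
    have h8 := Finset.card_le_two (a := y1) (b := y2)
    omega
  simp only [Finset.mem_insert, Finset.mem_singleton, not_or] at hz
  obtain ⟨z1, z2, z3, z4, z5, z6, z7⟩ := hz
  have hVz := (hS z).1 hzS
  obtain ⟨w, w', hww', hNz⟩ := Finset.card_eq_two.1 (htwo z hVz)
  have hw : w ∈ NN P S z := by rw [hNz]; simp
  have hw' : w' ∈ NN P S z := by rw [hNz]; simp
  have hVw := hvxN z w hw
  have hVw' := hvxN z w' hw'
  -- adjacency
  have hadjof : ∀ a b, Vx P b → b ≠ a → b ∉ NN P S a → Adj P a b := by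
    intro a b hb hne h
    by_contra hcon
    exact h ((mem_NN S a b).2 ⟨(hS b).2 hb, hne, hcon⟩)
  have hnot : ∀ b ∈ NN P S z, b ≠ v ∧ b ≠ u ∧ b ≠ u' ∧ b ≠ x1 ∧ b ≠ x2 := by
    intro b hb
    have h1 := hsymm z b hVz hb
    refine ⟨?_, ?_, ?_, ?_, ?_⟩
    · rintro rfl
      rw [hNv] at h1
      simp only [Finset.mem_insert, Finset.mem_singleton] at h1
      rcases h1 with h1 | h1
      · exact z2 h1
      · exact z3 h1
    · rintro rfl
      rw [hNu] at h1
      simp only [Finset.mem_insert, Finset.mem_singleton] at h1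
      rcases h1 with h1 | h1
      · exact z1 h1
      · exact z4 h1
    · rintro rfl
      rw [hNu'] at h1
      simp only [Finset.mem_insert, Finset.mem_singleton] at h1
      rcases h1 with h1 | h1
      · exact z1 h1
      · exact z5 h1
    · rintro rfl
      rw [hNx1] at h1
      simp only [Finset.mem_insert, Finset.mem_singleton] at h1
      rcases h1 with h1 | h1
      · exact z2 h1
      · exact z6 h1
    · rintro rfl
      rw [hNx2] at h1
      simp only [Finset.mem_insert, Finset.mem_singleton] at h1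
      rcases h1 with h1 | h1
      · exact z3 h1
      · exact z7 h1
  have hcross : ∀ b, Vx P b → (b ≠ v ∧ b ≠ u ∧ b ≠ u' ∧ b ≠ x1 ∧ b ≠ x2) →
      ⟪v, b⟫ = c ∧ ⟪u, b⟫ = c ∧ ⟪u', b⟫ = c := by
    rintro b hb ⟨b1, b2, b3, b4, b5⟩
    refine ⟨hE v b (hadjof v b hb b1 ?_), hE u b (hadjof u b hb b2 ?_),
      hE u' b (hadjof u' b hb b3 ?_)⟩
    · rw [hNv]
      simp only [Finset.mem_insert, Finset.mem_singleton, not_or]
      exact ⟨b2, b3⟩
    · rw [hNu]
      simp only [Finset.mem_insert, Finset.mem_singleton, not_or]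
      exact ⟨b1, b4⟩
    · rw [hNu']
      simp only [Finset.mem_insert, Finset.mem_singleton, not_or]
      exact ⟨b1, b5⟩
  obtain ⟨a1, a2, a3⟩ := hcross z hVz ⟨z1, z2, z3, z4, z5⟩
  obtain ⟨b1, b2, b3⟩ := hcross w hVw (hnot w hw)
  obtain ⟨c1, c2, c3⟩ := hcross w' hVw' (hnot w' hw')
  have hkl : ∀ a b, Vx P a → b ∈ NN P S a → ⟪a, b⟫ ≤ 2 * c - 1 := by
    intro a b ha hb
    have h1 := (mem_NN S a b).1 hb
    exact Pool.Agent.T9h47.NK.kl hF hC hP (by linarith) hU hE hPC a b ha ((hS b).1 h1.1)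
      h1.2.1.symm h1.2.2
  have k1 := hkl v u hv hu
  have k2 := hkl v u' hv hu'
  have k3 := hkl z w hVz hw
  have k4 := hkl z w' hVz hw'
  have k5 := hPC u u' hVu hVu' huu'
  have k6 := hPC w w' hVw hVw' hww'
  have n : ∀ a, Vx P a → ⟪a, a⟫ = 1 := fun a ha => by
    rw [real_inner_self_eq_norm_sq, hU a ha]; norm_num
  have h0 : 0 ≤ ⟪(v + u + u') - (z + w + w'), (v + u + u') - (z + w + w')⟫ :=
    real_inner_self_nonneg
  have hex : ⟪(v + u + u') - (z + w + w'), (v + u + u') - (z + w + w')⟫ =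
      6 + 2 * (⟪v, u⟫ + ⟪v, u'⟫ + ⟪u, u'⟫) + 2 * (⟪z, w⟫ + ⟪z, w'⟫ + ⟪w, w'⟫) - 18 * c := by
    simp only [inner_sub_left, inner_sub_right, inner_add_left, inner_add_right]
    rw [n v hv, n u hVu, n u' hVu', n z hVz, n w hVw, n w' hVw', real_inner_comm v z,
      real_inner_comm v w, real_inner_comm v w', real_inner_comm u z, real_inner_comm u w,
      real_inner_comm u w', real_inner_comm u' z, real_inner_comm u' w, real_inner_comm u' w',
      real_inner_comm u v, real_inner_comm u' v, real_inner_comm u' u, real_inner_comm w z,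
      real_inner_comm w' z, real_inner_comm w' w, a1, a2, a3, b1, b2, b3, c1, c2, c3]
    ring
  rw [hex] at h0
  linarith

end

end Pool.Agent.T9h40.NK
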