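import Pool.Agent.T9h44.NK.SpecA
import Pool.Agent.T9h77.DC.Dim

/-!
# Project NK (helper44): piece FACES
-/

set_option autoImplicit false

open Set
open scoped RealInnerProductSpace

namespace Pool.Agent.T9h40.NK

open Pool.Agent.T9h98.DC Pool.Agent.T9h44.NK

variable {d : ℕ}

/-- an open half space with a convex part of its boundary is convex -/
theorem convex_half (f : E d →L[ℝ] ℝ) (c : ℝ) (K : Set (E d)) (hK : Convex ℝ K)
    (hKc : ∀ x ∈ K, f x = c) : Convex ℝ ({x | f x < c} ∪ K) := by
  intro x hx y hy a b ha hb hab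
  have hf : f (a • x + b • y) = a * f x + b * f y := by
    rw [map_add, map_smul, map_smul, smul_eq_mul, smul_eq_mul]
  rcases hx with hx | hx
  · rcases hy with hy | hy
    · left
      show f (a • x + b • y) < c
      simp only [mem_ofPred_eq] at hx hy
      rw [hf]
      rcases ha.eq_or_lt with h | h
      · have : b = 1 := by linarith
        rw [← h, this]
        linarith
      · have h1 := mul_lt_mul_of_pos_left hx h
        have h2 := mul_le_mul_of_nonneg_left (le_of_lt hy) hb
        have h3 : a * c + b * c = c := by rw [← add_mul, hab, one_mul]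
        linarith
    · rcases ha.eq_or_lt with h | h
      · right
        have hb1 : b = 1 := by linarith
        rw [← h, hb1, zero_smul, zero_add, one_smul]
        exact hy
      · left
        show f (a • x + b • y) < c
        simp only [mem_ofPred_eq] at hx
        rw [hf, hKc y hy]
        have h1 := mul_lt_mul_of_pos_left hx h
        have h3 : a * c + b * c = c := by rw [← add_mul, hab, one_mul]
        linarith
  · rcases hy with hy | hy
    · rcases hb.eq_or_lt with h | h
      · right
        have ha1 : a = 1 := by linarith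
        rw [← h, ha1, zero_smul, add_zero, one_smul]
        exact hx
      · left
        show f (a • x + b • y) < c
        simp only [mem_ofPred_eq] at hy
        rw [hf, hKc x hx]
        have h1 := mul_lt_mul_of_pos_left hy h
        have h3 : a * c + b * c = c := by rw [← add_mul, hab, one_mul]
        linarith
    · right
      exact hK hx hy ha hb hab

/-- the points of a hull where a functional is maximal -/
theorem max_hull (f : E d →L[ℝ] ℝ) (c : ℝ) (s : Set (E d)) (hs : ∀ p ∈ s, f p ≤ c) :
    (∀ y ∈ convexHull ℝ s, f y ≤ c) ∧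
      ∀ y ∈ convexHull ℝ s, f y = c → y ∈ convexHull ℝ {p | p ∈ s ∧ f p = c} := by
  have hK : ∀ x ∈ convexHull ℝ {p | p ∈ s ∧ f p = c}, f x = c := by
    intro x hx
    have h1 : convexHull ℝ {p | p ∈ s ∧ f p = c} ⊆ {x | f x = c} := by
      refine convexHull_min (fun p hp => hp.2) ?_
      intro x hx y hy a b _ _ hab
      simp only [mem_ofPred_eq] at hx hy ⊢
      rw [map_add, map_smul, map_smul, smul_eq_mul, smul_eq_mul, hx, hy, ← add_mul, hab, one_mul]
    exact h1 hx
  have h2 : convexHull ℝ s ⊆ {x | f x < c} ∪ convexHull ℝ {p | p ∈ s ∧ f p = c} := by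
    refine convexHull_min (fun p hp => ?_) (convex_half f c _ (convex_convexHull ℝ _) hK)
    rcases (hs p hp).lt_or_eq with h | h
    · exact Or.inl h
    · exact Or.inr (subset_convexHull ℝ _ ⟨hp, h⟩)
  refine ⟨fun y hy => ?_, fun y hy hyc => ?_⟩
  · rcases h2 hy with h | h
    · exact le_of_lt h
    · exact (hK y h).le
  · rcases h2 hy with h | h
    · exact absurd hyc (ne_of_lt h)
    · exact h

theorem FP.compact {P : Set (E d)} (hP : FP P) : IsCompact P := by
  obtain ⟨s, rfl⟩ := hP
  exact (s.finite_toSet).isCompact_convexHull ℝ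

theorem FP.convex {P : Set (E d)} (hP : FP P) : Convex ℝ P := by
  obtain ⟨s, rfl⟩ := hP
  exact convex_convexHull ℝ _

/-- vertices are the extreme points -/
theorem vx_iff {P : Set (E d)} (hP : FP P) (v : E d) : Vx P v ↔ v ∈ P.extremePoints ℝ := by
  constructor
  · intro h
    exact isExtreme_singleton.1 h.2.isExtreme
  · intro h
    obtain ⟨s, rfl⟩ := hP
    refine ⟨singleton_nonempty v, fun _ => ?_⟩
    have hc : Convex ℝ (convexHull ℝ (s : Set (E d)) \ {v}) :=
      ((convex_convexHull ℝ _).mem_extremePoints_iff_convex_diff.1 h).2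
    have hvC : v ∉ convexHull ℝ ((s : Set (E d)) \ {v}) := by
      intro hv
      have h1 : convexHull ℝ ((s : Set (E d)) \ {v}) ⊆ convexHull ℝ (s : Set (E d)) \ {v} :=
        convexHull_min (fun p hp => ⟨subset_convexHull ℝ _ hp.1, hp.2⟩) hc
      exact (h1 hv).2 rfl
    have hcomp : IsCompact (convexHull ℝ ((s : Set (E d)) \ {v})) :=
      (s.finite_toSet.subset diff_subset).isCompact_convexHull ℝ
    obtain ⟨l, u, hl, hu⟩ := geometric_hahn_banach_closed_point (convex_convexHull ℝ _)
      hcomp.isClosed hvC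
    have hs : ∀ p ∈ (s : Set (E d)), p ≠ v → l p < l v := fun p hp hpv =>
      (hl p (subset_convexHull ℝ _ ⟨hp, hpv⟩)).trans hu
    have hs' : ∀ p ∈ (s : Set (E d)), l p ≤ l v := fun p hp => by
      by_cases hpv : p = v
      · rw [hpv]
      · exact (hs p hp hpv).le
    obtain ⟨h3, h4⟩ := max_hull l (l v) s hs'
    refine ⟨l, ?_⟩
    ext x
    simp only [mem_singleton_iff, mem_ofPred_eq]
    constructor
    · rintro rfl
      exact ⟨h.1, h3⟩
    · rintro ⟨hx, hx2⟩
      have h5 : l x = l v := le_antisymm (h3 x hx) (hx2 v h.1)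
      have h6 := h4 x hx h5
      have h7 : {p | p ∈ (s : Set (E d)) ∧ l p = l v} ⊆ {v} := by
        rintro p ⟨hp, hp2⟩
        by_contra hne
        exact absurd hp2 (ne_of_lt (hs p hp hne))
      have h8 := convexHull_mono (𝕜 := ℝ) h7 h6
      rwa [convexHull_singleton] at h8

theorem extreme_finite {P : Set (E d)} (hP : FP P) : (P.extremePoints ℝ).Finite := by
  obtain ⟨s, rfl⟩ := hP
  exact s.finite_toSet.subset extremePoints_convexHull_subset

/-- a compact convex set with finitely many extreme points is their hull -/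
theorem eq_hull {F : Set (E d)} (h1 : IsCompact F) (h2 : Convex ℝ F)
    (h3 : (F.extremePoints ℝ).Finite) : F = convexHull ℝ (F.extremePoints ℝ) := by
  have h4 := closure_convexHull_extremePoints h1 h2
  rw [(h3.isCompact_convexHull ℝ).isClosed.closure_eq] at h4
  exact h4.symm

theorem face_all {P : Set (E d)} (hP : FP P) {F : Set (E d)} (hF : IsFace P F) :
    IsCompact F ∧ Convex ℝ F ∧ (F.extremePoints ℝ).Finite ∧
      F.extremePoints ℝ = {v | Vx P v ∧ v ∈ F} := by
  have h1 : IsCompact F := hF.2.isCompact (FP.compact hP)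
  have h2 : Convex ℝ F := hF.2.convex (FP.convex hP)
  have h3 : F.extremePoints ℝ = F ∩ P.extremePoints ℝ := hF.2.isExtreme.extremePoints_eq
  refine ⟨h1, h2, ?_, ?_⟩
  · rw [h3]
    exact (extreme_finite hP).subset inter_subset_right
  · rw [h3]
    ext v
    simp only [mem_inter_iff, mem_ofPred_eq, vx_iff hP v]
    exact and_comm

theorem face_fp {P : Set (E d)} (hP : FP P) {F : Set (E d)} (hF : IsFace P F) :
    FP F ∧ F = convexHull ℝ {v | Vx P v ∧ v ∈ F} := by
  obtain ⟨h1, h2, h3, h4⟩ := face_all hP hF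
  have h5 := eq_hull h1 h2 h3
  refine ⟨⟨h3.toFinset, ?_⟩, ?_⟩
  · rw [h3.coe_toFinset]
    exact h5
  · rw [← h4]
    exact h5

theorem face_face {P : Set (E d)} (hP : FP P) {F : Set (E d)} (hF : IsFace P F) (G : Set (E d)) :
    IsFace F G ↔ (IsFace P G ∧ G ⊆ F) := by
  constructor
  · intro hG
    have hGF : G ⊆ F := hG.2.subset
    refine ⟨⟨hG.1, fun _ => ?_⟩, hGF⟩
    obtain ⟨s, hs⟩ := hP
    obtain ⟨l, hl⟩ := hF.2 hF.1
    obtain ⟨b, hb⟩ := hG.2 hG.1
    obtain ⟨g, hg⟩ := hG.1
    have hgF : g ∈ F := hGF hg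
    have hgP : g ∈ P := hF.2.subset hgF
    have hlF : ∀ x ∈ F, l x = l g := by
      intro x hx
      have h1 : x ∈ P ∧ ∀ y ∈ P, l y ≤ l x := by rw [hl] at hx; exact hx
      have h2 : g ∈ P ∧ ∀ y ∈ P, l y ≤ l g := by rw [hl] at hgF; exact hgF
      exact le_antisymm (h2.2 x h1.1) (h1.2 g h2.1)
    have hlP : ∀ x ∈ P, l x ≤ l g := by
      intro x hx
      have h2 : g ∈ P ∧ ∀ y ∈ P, l y ≤ l g := by rw [hl] at hgF; exact hgF
      exact h2.2 x hx
    have hlF' : ∀ x ∈ P, l x = l g → x ∈ F := by
      intro x hx h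
      rw [hl]
      exact ⟨hx, fun y hy => by rw [h]; exact hlP y hy⟩
    have hbF : ∀ x ∈ F, b x ≤ b g := by
      intro x hx
      have h2 : g ∈ F ∧ ∀ y ∈ F, b y ≤ b g := by rw [hb] at hg; exact hg
      exact h2.2 x hx
    have hbG : ∀ x ∈ F, b x = b g → x ∈ G := by
      intro x hx h
      rw [hb]
      exact ⟨hx, fun y hy => by rw [h]; exact hbF y hy⟩
    have hbG' : ∀ x ∈ G, b x = b g := by
      intro x hx
      have h1 : x ∈ F ∧ ∀ y ∈ F, b y ≤ b x := by rw [hb] at hx; exact hx
      exact le_antisymm (hbF x h1.1) (h1.2 g hgF)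
    -- the choice of ε
    obtain ⟨ε, hε, hε2⟩ : ∃ ε : ℝ, 0 < ε ∧ ∀ p ∈ s, p ∉ F → ε * (b p - b g) < l g - l p := by
      have h1 : ∀ p ∈ s, ∃ e : ℝ, 0 < e ∧ (p ∉ F → ∀ e' : ℝ, 0 < e' → e' ≤ e →
          e' * (b p - b g) < l g - l p) := by
        intro p hp
        have hpP : p ∈ P := by rw [hs]; exact subset_convexHull ℝ _ hp
        by_cases hpF : p ∈ F
        · exact ⟨1, one_pos, fun h => absurd hpF h⟩
        · have h2 : 0 < l g - l p := by
            have h3 := (hlP p hpP).lt_of_ne (fun h => hpF (hlF' p hpP h))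
            linarith
          have h4 : 0 < |b p - b g| + 1 := by positivity
          refine ⟨(l g - l p) / (|b p - b g| + 1), div_pos h2 h4, fun _ e' he' hle => ?_⟩
          have h5 : e' * (|b p - b g| + 1) ≤ l g - l p := by
            rw [le_div_iff₀ h4] at hle
            exact hle
          have h6 : e' * (b p - b g) ≤ e' * |b p - b g| :=
            mul_le_mul_of_nonneg_left (le_abs_self _) he'.le
          nlinarith
      choose! e he1 he2 using h1
      rcases s.eq_empty_or_nonempty with hse | hse
      · exact ⟨1, one_pos, fun p hp => by rw [hse] at hp; simp at hp⟩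
      · obtain ⟨q, hq, hq2⟩ := s.exists_min_image e hse
        exact ⟨e q, he1 q hq, fun p hp hpF => he2 p hp hpF (e q) (he1 q hq) (hq2 p hp)⟩
    have hs1 : ∀ p ∈ (s : Set (E d)), (l + ε • b) p ≤ l g + ε * b g := by
      intro p hp
      have hpP : p ∈ P := by rw [hs]; exact subset_convexHull ℝ _ hp
      show l p + ε * b p ≤ _
      by_cases hpF : p ∈ F
      · rw [hlF p hpF]
        have := mul_le_mul_of_nonneg_left (hbF p hpF) hε.le
        linarith
      · have := hε2 p hp hpF
        nlinarith
    obtain ⟨h3, h4⟩ := max_hull (l + ε • b) (l g + ε * b g) s hs1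
    refine ⟨l + ε • b, ?_⟩
    ext x
    simp only [mem_ofPred_eq]
    have hval : ∀ z : E d, (l + ε • b) z = l z + ε * b z := fun z => rfl
    constructor
    · intro hx
      refine ⟨hF.2.subset (hGF hx), fun y hy => ?_⟩
      rw [hs] at hy
      have h5 : (l + ε • b) x = l g + ε * b g := by
        rw [hval, hlF x (hGF hx), hbG' x hx]
      rw [h5]
      exact h3 y hy
    · rintro ⟨hx, hx2⟩
      have hx' := hx
      rw [hs] at hx'
      have h5 : (l + ε • b) x = l g + ε * b g := by
        refine le_antisymm (h3 x hx') ?_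
        have := hx2 g hgP
        rwa [hval g] at this
      have h6 := h4 x hx' h5
      have h7 : {p | p ∈ (s : Set (E d)) ∧ (l + ε • b) p = l g + ε * b g} ⊆ G := by
        rintro p ⟨hp, hp2⟩
        have hpP : p ∈ P := by rw [hs]; exact subset_convexHull ℝ _ hp
        rw [hval] at hp2
        by_cases hpF : p ∈ F
        · refine hbG p hpF ?_
          rw [hlF p hpF] at hp2
          have : ε * b p = ε * b g := by linarith
          exact mul_left_cancel₀ hε.ne' this
        · exfalso
          have := hε2 p hp hpF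
          nlinarith
      have hGc : Convex ℝ G := by
        have hPc : Convex ℝ P := by rw [hs]; exact convex_convexHull ℝ _
        exact hG.2.convex (hF.2.convex hPc)
      exact convexHull_min h7 hGc h6
  · rintro ⟨hG, hGF⟩
    exact ⟨hG.1, hG.2.mono hF.2.subset hGF⟩

theorem dm_zero {F : Set (E d)} (hne : F.Nonempty) (h : dm F = 0) : ∃ v, F = {v} := by
  have h1 : vectorSpan ℝ F = ⊥ := Submodule.finrank_eq_zero.1 h
  rw [vectorSpan_eq_bot_iff_subsingleton] at h1
  obtain ⟨v, hv⟩ := hne
  exact ⟨v, Subset.antisymm (fun x hx => h1 hx hv) (by rintro x rfl; exact hv)⟩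

theorem dm_segment {v w : E d} (h : v ≠ w) : dm (segment ℝ v w) = 1 := by
  have h1 : vectorSpan ℝ (segment ℝ v w) = vectorSpan ℝ {v, w} := by
    rw [← convexHull_pair, ← direction_affineSpan, affineSpan_convexHull, direction_affineSpan]
  unfold dm
  rw [h1, vectorSpan_pair_rev]
  exact finrank_span_singleton (by
    rw [vsub_eq_sub]
    exact sub_ne_zero.2 h.symm)

/-- two of three distinct points of a line are the ends of a segment through the third -/
theorem three {F : Set (E d)} (h : dm F = 1) {a b c : E d} (ha : a ∈ F.extremePoints ℝ)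
    (hb : b ∈ F.extremePoints ℝ) (hc : c ∈ F.extremePoints ℝ) (hab : a ≠ b) (hac : a ≠ c)
    (hbc : b ≠ c) : False := by
  have hcol : Collinear ℝ ({a, b, c} : Set (E d)) := by
    refine Collinear.subset (s₂ := F) ?_ (by
      rw [collinear_iff_finrank_le_one]
      exact h.le)
    rintro x (rfl | rfl | rfl)
    · exact ha.1
    · exact hb.1
    · exact hc.1
  have key : ∀ x y z : E d, x ∈ F → y ∈ F.extremePoints ℝ → z ∈ F → x ≠ y → y ≠ z →
      Wbtw ℝ x y z → False := by
    intro x y z hx hy hz hxy hyz hw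
    have h1 : y ∈ segment ℝ x z := by
      have := hw
      rwa [← mem_segment_iff_wbtw] at this
    have h2 : y ∈ openSegment ℝ x z := mem_openSegment_of_ne_left_right hxy hyz.symm h1
    exact hxy (hy.2 hx hz h2)
  rcases hcol.wbtw_or_wbtw_or_wbtw with hw | hw | hw
  · exact key a b c ha.1 hb hc.1 hab hbc hw
  · exact key b c a hb.1 hc ha.1 hbc hac.symm hw
  · exact key c a b hc.1 ha hb.1 hac.symm hab hw

theorem faces : S_FACES := by
  intro d P hP
  have hvx := vx_iff hP
  have hadj1 : ∀ v w, Adj P v w → Vx P v := by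
    rintro v w ⟨hne, hF⟩
    rw [hvx]
    obtain ⟨h1, h2, h3, h4⟩ := face_all hP hF
    refine hF.2.isExtreme.extremePoints_subset_extremePoints ?_
    by_contra hcon
    have h5 := eq_hull h1 h2 h3
    have h6 : (segment ℝ v w).extremePoints ℝ ⊆ {v, w} := by
      rw [← convexHull_pair]
      exact extremePoints_convexHull_subset
    have h7 : (segment ℝ v w).extremePoints ℝ ⊆ {w} := by
      intro x hx
      rcases h6 hx with rfl | hx'
      · exact absurd hx hcon
      · exact hx'
    have h8 : segment ℝ v w ⊆ {w} := by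
      rw [h5]
      refine (convexHull_mono h7).trans ?_
      rw [convexHull_singleton]
    exact hne (h8 (left_mem_segment ℝ v w))
  have hadj2 : ∀ v w, Adj P v w → Adj P w v := by
    rintro v w ⟨hne, hF⟩
    refine ⟨hne.symm, ?_⟩
    rw [segment_symm]
    exact hF
  refine ⟨fun F hF => face_fp hP hF, fun F hF G => face_face hP hF G, ?_, hvx, ?_, ?_, ?_, ?_, ?_, ?_⟩
  · have : {v | Vx P v} = P.extremePoints ℝ := by
      ext v
      exact hvx v
    rw [this]
    exact extreme_finite hP
  · intro hne
    refine ⟨⟨hne, IsExposed.refl P⟩, ?_⟩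
    obtain ⟨v, hv⟩ := (FP.compact hP).extremePoints_nonempty hne
    exact ⟨v, (hvx v).2 hv⟩
  · intro F G hF hG hFG hne
    exact Pool.Agent.T9h77.DC.finrank_lt hF hG.2.subset (hFG.ssubset_of_ne hne)
  · intro F hF h
    exact dm_zero hF.1 h
  · intro F hF h
    obtain ⟨h1, h2, h3, h4⟩ := face_all hP hF
    have h5 := eq_hull h1 h2 h3
    have hnt : ∃ v ∈ F.extremePoints ℝ, ∃ w ∈ F.extremePoints ℝ, v ≠ w := by
      by_contra hcon
      push Not at hcon
      have hss : (F.extremePoints ℝ).Subsingleton := fun x hx y hy => hcon x hx y hy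
      have hFs : F.Subsingleton := by
        rcases hss.eq_empty_or_singleton with he | ⟨x, hx⟩
        · rw [h5, he, convexHull_empty]
          exact subsingleton_empty
        · rw [h5, hx, convexHull_singleton]
          exact subsingleton_singleton
      have : dm F = 0 := by
        unfold dm
        rw [(vectorSpan_eq_bot_iff_subsingleton (k := ℝ)).2 hFs]
        exact finrank_bot ℝ _
      omega
    obtain ⟨v, hv, w, hw, hvw⟩ := hnt
    have h6 : F.extremePoints ℝ = {v, w} := by
      refine Subset.antisymm (fun x hx => ?_) ?_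
      · by_contra hcon
        simp only [mem_insert_iff, mem_singleton_iff, not_or] at hcon
        exact three h hv hw hx hvw (Ne.symm hcon.1) (Ne.symm hcon.2)
      · rintro x (rfl | rfl)
        · exact hv
        · exact hw
    have h7 : F = segment ℝ v w := by
      conv_lhs => rw [h5]
      rw [h6, convexHull_pair]
    exact ⟨v, w, ⟨hvw, h7 ▸ hF⟩, h7⟩
  · intro v w h
    exact ⟨hadj1 v w h, hadj1 w v (hadj2 v w h), hadj2 v w h, dm_segment h.1⟩
  · intro v w h u hu hus
    rw [← insert_endpoints_openSegment] at hus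
    rcases hus with rfl | rfl | hus
    · exact Or.inl rfl
    · exact Or.inr rfl
    · left
      have hv : v ∈ P := ((hvx v).1 (hadj1 v w h)).1
      have hw : w ∈ P := ((hvx w).1 (hadj1 w v (hadj2 v w h))).1
      exact (((hvx u).1 hu).2 hv hw hus).symm

end Pool.Agent.T9h40.NK
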