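import Pool.Agent.T9h98.NK.SpecS
import Pool.Agent.T9h40.NK.Faces

/-!
# Project NK (helper44, helper98): piece G2
-/

set_option autoImplicit false

open Set
open scoped RealInnerProductSpace

namespace Pool.Agent.T9h40.NK

open Pool.Agent.T9h98.DC Pool.Agent.T9h44.NK Pool.Agent.T9h98.NK

variable {d : ℕ}

/-- the face of a hull given by a functional -/
theorem face_max (f : E d →L[ℝ] ℝ) (M : ℝ) (S : Set (E d)) (hS : ∀ p ∈ S, f p ≤ M)
    (hne : ∃ p ∈ S, f p = M) :
    IsFace (convexHull ℝ S) (convexHull ℝ {p | p ∈ S ∧ f p = M}) := by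
  obtain ⟨h1, h2⟩ := max_hull f M S hS
  obtain ⟨p0, hp0, hf0⟩ := hne
  have hsub : {p | p ∈ S ∧ f p = M} ⊆ S := fun p hp => hp.1
  have h3 : ∀ x ∈ convexHull ℝ {p | p ∈ S ∧ f p = M}, f x = M := by
    intro x hx
    refine le_antisymm (h1 x (convexHull_mono hsub hx)) ?_
    have h5 := (max_hull (-f) (-M) {p | p ∈ S ∧ f p = M} (fun p hp => by
      show -(f p) ≤ -M
      rw [hp.2])).1 x hx
    have h4 : -(f x) ≤ -M := h5
    linarith
  refine ⟨⟨p0, subset_convexHull ℝ _ ⟨hp0, hf0⟩⟩, fun _ => ⟨f, ?_⟩⟩
  ext x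
  simp only [mem_ofPred_eq]
  constructor
  · intro hx
    refine ⟨convexHull_mono hsub hx, fun y hy => ?_⟩
    rw [h3 x hx]
    exact h1 y hy
  · rintro ⟨hx, hx2⟩
    refine h2 x hx (le_antisymm (h1 x hx) ?_)
    rw [← hf0]
    exact hx2 p0 (subset_convexHull ℝ _ hp0)

theorem g2 : S_G2 := by
  intro D Q c r b hr hQ
  set S : Set (E D) := {x | ∃ i, x = c + r • b i ∨ x = c - r • b i} with hS
  have hmem : ∀ x, x ∈ S ↔ ∃ (i : Fin D) (ε : ℝ), (ε = 1 ∨ ε = -1) ∧ x = c + (ε * r) • b i := by
    intro x
    constructor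
    · rintro ⟨i, h | h⟩
      · exact ⟨i, 1, Or.inl rfl, by rw [one_mul]; exact h⟩
      · exact ⟨i, -1, Or.inr rfl, by rw [h, neg_one_mul, neg_smul, sub_eq_add_neg]⟩
    · rintro ⟨i, ε, rfl | rfl, h⟩
      · exact ⟨i, Or.inl (by rw [h, one_mul])⟩
      · exact ⟨i, Or.inr (by rw [h, neg_one_mul, neg_smul, sub_eq_add_neg])⟩
  have hin : ∀ i j, ⟪b i, b j⟫ = if i = j then (1 : ℝ) else 0 :=
    orthonormal_iff_ite.1 b.orthonormal
  have hval : ∀ (w : E D) (j : Fin D) (δ : ℝ),
      innerSL ℝ w (c + (δ * r) • b j) = ⟪w, c⟫ + δ * r * ⟪w, b j⟫ := by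
    intro w j δ
    rw [innerSL_apply_apply, inner_add_right, real_inner_smul_right]
  -- vertices
  have hvx : ∀ (i : Fin D) (ε : ℝ), (ε = 1 ∨ ε = -1) → Vx Q (c + (ε * r) • b i) := by
    intro i ε hε
    have hε2 : ε * ε = 1 := by rcases hε with rfl | rfl <;> norm_num
    have hle : ∀ (j : Fin D) (δ : ℝ), (δ = 1 ∨ δ = -1) → (i ≠ j ∨ δ ≠ ε) →
        δ * r * ⟪ε • b i, b j⟫ < r := by
      intro j δ hδ hne
      rw [real_inner_smul_left, hin]
      by_cases hij : i = j
      · have hδε : δ ≠ ε := by
          rcases hne with h | h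
          · exact absurd hij h
          · exact h
        have hp : δ * ε = -1 := by
          rcases hδ with rfl | rfl <;> rcases hε with rfl | rfl <;> simp at hδε ⊢
        rw [if_pos hij]
        have : δ * r * (ε * 1) = δ * ε * r := by ring
        rw [this, hp]
        linarith
      · rw [if_neg hij]
        simpa using hr
    have heq : ε * r * ⟪ε • b i, b i⟫ = r := by
      rw [real_inner_smul_left, hin, if_pos rfl]
      have : ε * r * (ε * 1) = (ε * ε) * r := by ring
      rw [this, hε2, one_mul]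
    have h1 := face_max (innerSL ℝ (ε • b i)) (⟪ε • b i, c⟫ + r) S (by
      intro p hp
      obtain ⟨j, δ, hδ, rfl⟩ := (hmem p).1 hp
      rw [hval]
      by_cases hne : i ≠ j ∨ δ ≠ ε
      · linarith [hle j δ hδ hne]
      · push Not at hne
        rw [← hne.1, hne.2, heq]) ⟨c + (ε * r) • b i, (hmem _).2 ⟨i, ε, hε, rfl⟩, by
          rw [hval, heq]⟩
    have h2 : {p | p ∈ S ∧ innerSL ℝ (ε • b i) p = ⟪ε • b i, c⟫ + r} = {c + (ε * r) • b i} := by
      ext p
      simp only [mem_ofPred_eq, mem_singleton_iff]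
      constructor
      · rintro ⟨hp, hp2⟩
        obtain ⟨j, δ, hδ, rfl⟩ := (hmem p).1 hp
        rw [hval] at hp2
        by_contra hcon
        have hne : i ≠ j ∨ δ ≠ ε := by
          by_contra h
          push Not at h
          exact hcon (by rw [← h.1, h.2])
        linarith [hle j δ hδ hne]
      · rintro rfl
        exact ⟨(hmem _).2 ⟨i, ε, hε, rfl⟩, by rw [hval, heq]⟩
    rw [h2, convexHull_singleton, ← hQ] at h1
    exact h1
  have hvx2 : ∀ x, Vx Q x ↔ x ∈ S := by
    intro x
    constructor
    · intro h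
      have h1 : x ∈ Q.extremePoints ℝ := isExtreme_singleton.1 h.2.isExtreme
      rw [hQ] at h1
      exact extremePoints_convexHull_subset h1
    · intro h
      obtain ⟨i, ε, hε, rfl⟩ := (hmem x).1 h
      exact hvx i ε hε
  refine ⟨hvx2, fun x y hx hy => ?_⟩
  obtain ⟨i, ε, hε, hxe⟩ := (hmem x).1 ((hvx2 x).1 hx)
  obtain ⟨j, δ, hδ, hye⟩ := (hmem y).1 ((hvx2 y).1 hy)
  constructor
  · rintro ⟨hne, hF⟩
    refine ⟨hne, ?_⟩
    by_contra hcon
    push Not at hcon
    obtain ⟨h1, h2⟩ := hcon
    obtain ⟨k, hk⟩ : ∃ k : Fin D, k ≠ i := by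
      have : Nontrivial (Fin D) := by
        have := i.pos
        exact Fin.nontrivial_iff_two_le.2 (by omega)
      exact exists_ne i
    -- c is in the segment
    have hc : c ∈ segment ℝ x y := by
      have : c = (1 / 2 : ℝ) • x + (1 / 2 : ℝ) • y := by
        have h3 : y = c + -(x - c) := by rw [← h1]; abel
        rw [h3]
        module
      exact ⟨1 / 2, 1 / 2, by norm_num, by norm_num, by norm_num, this.symm⟩
    have hk1 : c + (1 * r) • b k ∈ Q := ((hvx2 _).2 ((hmem _).2 ⟨k, 1, Or.inl rfl, rfl⟩)).2.subset rfl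
    have hk2 : c + (-1 * r) • b k ∈ Q :=
      ((hvx2 _).2 ((hmem _).2 ⟨k, -1, Or.inr rfl, rfl⟩)).2.subset rfl
    have hop : c ∈ openSegment ℝ (c + (1 * r) • b k) (c + (-1 * r) • b k) :=
      ⟨1 / 2, 1 / 2, by norm_num, by norm_num, by norm_num, by module⟩
    have h4 := hF.2.isExtreme.2 hk1 hk2 hc hop
    obtain ⟨s, t, _, _, hst, h5⟩ := h4
    have h6 : ⟪s • x + t • y - c, b k⟫ = r := by
      rw [h5, add_sub_cancel_left, real_inner_smul_left, hin, if_pos rfl]
      ring
    have h7 : s • x + t • y - c = ((s - t) * (ε * r)) • b i := by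
      have h3 : y = c + -(x - c) := by rw [← h1]; abel
      rw [h3, hxe]
      have hs : s = 1 - t := by linarith
      rw [hs]
      module
    rw [h7, real_inner_smul_left, hin, if_neg (Ne.symm hk), mul_zero] at h6
    exact hr.ne h6
  · rintro ⟨hne, hcase⟩
    refine ⟨hne, ?_⟩
    by_cases hij : i = j
    · -- antipodal, D = 1
      have hδε : δ = -ε := by
        rcases hδ with rfl | rfl <;> rcases hε with rfl | rfl
        · exact absurd (by rw [hxe, hye, hij]) hne
        · norm_num
        · rfl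
        · exact absurd (by rw [hxe, hye, hij]) hne
      have hanti : y - c = -(x - c) := by
        rw [hxe, hye, hδε, hij]
        module
      have hD : D = 1 := by
        rcases hcase with h | h
        · exact absurd hanti h
        · exact h
      have hSe : S = {x, y} := by
        ext p
        simp only [mem_insert_iff, mem_singleton_iff]
        constructor
        · intro hp
          obtain ⟨k, γ, hγ, rfl⟩ := (hmem p).1 hp
          have hki : k = i := by
            subst hD
            exact Subsingleton.elim _ _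
          rw [hki, hxe, hye, ← hij, hδε]
          rcases hγ with rfl | rfl <;> rcases hε with rfl | rfl <;> simp
        · rintro (rfl | rfl)
          · exact (hvx2 _).1 hx
          · exact (hvx2 _).1 hy
      rw [← convexHull_pair, ← hSe, ← hQ]
      exact ⟨⟨x, hx.2.subset rfl⟩, IsExposed.refl Q⟩
    · have hε2 : ε * ε = 1 := by rcases hε with rfl | rfl <;> norm_num
      have hδ2 : δ * δ = 1 := by rcases hδ with rfl | rfl <;> norm_num
      have hw : ∀ k, ⟪ε • b i + δ • b j, b k⟫ =
          ε * (if i = k then 1 else 0) + δ * (if j = k then 1 else 0) := by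
        intro k
        rw [inner_add_left, real_inner_smul_left, real_inner_smul_left, hin, hin]
      have hle : ∀ (k : Fin D) (γ : ℝ), (γ = 1 ∨ γ = -1) → ¬ (i = k ∧ γ = ε) → ¬ (j = k ∧ γ = δ) →
          γ * r * ⟪ε • b i + δ • b j, b k⟫ < r := by
        intro k γ hγ h1 h2
        rw [hw]
        by_cases hik : i = k
        · have hjk : j ≠ k := fun h => hij (hik.trans h.symm)
          rw [if_pos hik, if_neg hjk]
          have hp : γ * ε = -1 := by
            have : γ ≠ ε := fun h => h1 ⟨hik, h⟩
            rcases hγ with rfl | rfl <;> rcases hε with rfl | rfl <;> simp at this ⊢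
          have : γ * r * (ε * 1 + δ * 0) = γ * ε * r := by ring
          rw [this, hp]
          linarith
        · rw [if_neg hik]
          by_cases hjk : j = k
          · rw [if_pos hjk]
            have hp : γ * δ = -1 := by
              have : γ ≠ δ := fun h => h2 ⟨hjk, h⟩
              rcases hγ with rfl | rfl <;> rcases hδ with rfl | rfl <;> simp at this ⊢
            have : γ * r * (ε * 0 + δ * 1) = γ * δ * r := by ring
            rw [this, hp]
            linarith
          · rw [if_neg hjk]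
            simpa using hr
      have hex : ε * r * ⟪ε • b i + δ • b j, b i⟫ = r := by
        rw [hw, if_pos rfl, if_neg (fun h => hij h.symm)]
        have : ε * r * (ε * 1 + δ * 0) = ε * ε * r := by ring
        rw [this, hε2, one_mul]
      have hey : δ * r * ⟪ε • b i + δ • b j, b j⟫ = r := by
        rw [hw, if_neg hij, if_pos rfl]
        have : δ * r * (ε * 0 + δ * 1) = δ * δ * r := by ring
        rw [this, hδ2, one_mul]
      have h1 := face_max (innerSL ℝ (ε • b i + δ • b j)) (⟪ε • b i + δ • b j, c⟫ + r) S (by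
        intro p hp
        obtain ⟨k, γ, hγ, rfl⟩ := (hmem p).1 hp
        rw [hval]
        by_cases h1 : i = k ∧ γ = ε
        · rw [← h1.1, h1.2, hex]
        · by_cases h2 : j = k ∧ γ = δ
          · rw [← h2.1, h2.2, hey]
          · linarith [hle k γ hγ h1 h2]) ⟨c + (ε * r) • b i, (hmem _).2 ⟨i, ε, hε, rfl⟩, by
          rw [hval, hex]⟩
      have h2 : {p | p ∈ S ∧ innerSL ℝ (ε • b i + δ • b j) p = ⟪ε • b i + δ • b j, c⟫ + r} =
          {x, y} := by
        ext p
        simp only [mem_ofPred_eq, mem_insert_iff, mem_singleton_iff]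
        constructor
        · rintro ⟨hp, hp2⟩
          obtain ⟨k, γ, hγ, rfl⟩ := (hmem p).1 hp
          rw [hval] at hp2
          by_cases h1 : i = k ∧ γ = ε
          · left
            rw [← h1.1, h1.2, hxe]
          · by_cases h2 : j = k ∧ γ = δ
            · right
              rw [← h2.1, h2.2, hye]
            · linarith [hle k γ hγ h1 h2]
        · rintro (rfl | rfl)
          · exact ⟨(hvx2 _).1 hx, by rw [hxe, hval, hex]⟩
          · exact ⟨(hvx2 _).1 hy, by rw [hye, hval, hey]⟩
      rw [h2, convexHull_pair, ← hQ] at h1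
      exact h1

end Pool.Agent.T9h40.NK
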