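import Pool.Agent.T9h44.NK.Defs

/-!
# Project NK (helper44): scaling of regular polytopes
-/

set_option autoImplicit false

open Set
open scoped RealInnerProductSpace

namespace Pool.Agent.T9h40.NK

open Pool.Agent.T9h98.DC Pool.Agent.T9h44.NK

variable {d : ℕ}

theorem image_inv {r : ℝ} (hr : 0 < r) (P : Set (E d)) :
    P = (fun x => r⁻¹ • x) '' ((fun x => r • x) '' P) := by
  rw [image_image]
  have h : (fun x : E d => r⁻¹ • r • x) = id := by
    funext x
    rw [smul_smul, inv_mul_cancel₀ hr.ne', one_smul, id]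
  rw [h, image_id]

theorem image_hull (a : ℝ) (s : Set (E d)) :
    (fun x => a • x) '' convexHull ℝ s = convexHull ℝ ((fun x => a • x) '' s) := by
  have := LinearMap.image_convexHull (𝕜 := ℝ) (a • LinearMap.id : E d →ₗ[ℝ] E d) s
  exact this

theorem regS_scale {r : ℝ} (hr : 0 < r) {P : Set (E d)} (h : RegS P) :
    RegS ((fun x => r • x) '' P) := by
  obtain ⟨v, s, hs, hv, hP⟩ := h
  refine ⟨fun i => r • v i, r * s, mul_pos hr hs, fun i j hij => ?_, ?_⟩
  · rw [dist_smul₀, hv i j hij, Real.norm_of_nonneg hr.le]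
  · rw [hP, image_hull]
    congr 1
    rw [← range_comp]
    rfl

theorem regO_scale {r : ℝ} (hr : 0 < r) {P : Set (E d)} (h : RegO P) :
    RegO ((fun x => r • x) '' P) := by
  obtain ⟨c, s, b, hs, hP⟩ := h
  refine ⟨r • c, r * s, b, mul_pos hr hs, ?_⟩
  rw [hP, image_hull]
  congr 1
  ext x
  simp only [mem_image, mem_ofPred_eq]
  constructor
  · rintro ⟨y, ⟨i, hi⟩, rfl⟩
    refine ⟨i, ?_⟩
    rcases hi with rfl | rfl
    · left
      rw [smul_add, smul_smul]
    · right
      rw [smul_sub, smul_smul]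
  · rintro ⟨i, hi⟩
    rcases hi with rfl | rfl
    · exact ⟨c + s • b i, ⟨i, Or.inl rfl⟩, by rw [smul_add, smul_smul]⟩
    · exact ⟨c - s • b i, ⟨i, Or.inr rfl⟩, by rw [smul_sub, smul_smul]⟩

theorem regC_scale {r : ℝ} (hr : 0 < r) {P : Set (E d)} (h : RegC P) :
    RegC ((fun x => r • x) '' P) := by
  obtain ⟨c, s, b, hs, hP⟩ := h
  refine ⟨r • c, r * s, b, mul_pos hr hs, ?_⟩
  rw [hP]
  ext x
  simp only [mem_image, mem_ofPred_eq]
  constructor
  · rintro ⟨y, hy, rfl⟩ i
    rw [← smul_sub, real_inner_smul_left, abs_mul, abs_of_pos hr]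
    exact mul_le_mul_of_nonneg_left (hy i) hr.le
  · intro hx
    refine ⟨r⁻¹ • x, fun i => ?_, by
      rw [smul_smul, mul_inv_cancel₀ hr.ne', one_smul]⟩
    have h1 : x - r • c = r • (r⁻¹ • x - c) := by
      rw [smul_sub, smul_smul, mul_inv_cancel₀ hr.ne', one_smul]
    have h2 := hx i
    rw [h1, real_inner_smul_left, abs_mul, abs_of_pos hr] at h2
    exact le_of_mul_le_mul_left h2 hr

theorem reg_scale' {r : ℝ} (hr : 0 < r) {P : Set (E d)} (h : Reg P) :
    Reg ((fun x => r • x) '' P) := by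
  rcases h with h | h | h
  · exact Or.inl (regS_scale hr h)
  · exact Or.inr (Or.inl (regO_scale hr h))
  · exact Or.inr (Or.inr (regC_scale hr h))

theorem reg_scale {r : ℝ} (hr : 0 < r) {P : Set (E d)} (h : Reg ((fun x => r • x) '' P)) :
    Reg P := by
  rw [image_inv hr P]
  exact reg_scale' (inv_pos.2 hr) h

end Pool.Agent.T9h40.NK
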