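import Pool.Agent.T9h57.NK.L2
import Pool.Agent.T9h40.NK.Imp

/-!
# Project NK: the vertices of a polytope with `PT 2` form a tight frame
-/

set_option autoImplicit false

open Set Finset
open scoped RealInnerProductSpace

namespace Pool.Agent.T9h40.NK

open Pool.Agent.T9h98.DC Pool.Agent.T9h44.NK Pool.Agent.T9h57.NK

variable {d : ℕ} {P : Set (E (d + 1))} {H : Subgroup (E (d + 1) ≃ₗᵢ[ℝ] E (d + 1))} {c : ℝ}

theorem sum_H (hH : Pres H P) (S : Finset (E (d + 1))) (hS : ∀ v, v ∈ S ↔ Vx P v)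
    {M : Type} [AddCommMonoid M] (f : E (d + 1) → M) {h : E (d + 1) ≃ₗᵢ[ℝ] E (d + 1)} (hh : h ∈ H) :
    ∑ u ∈ S, f (h u) = ∑ u ∈ S, f u := by
  refine Finset.sum_nbij' (fun x => h x) (fun x => h.symm x) ?_ ?_ ?_ ?_ ?_
  · intro x hx
    rw [hS] at hx ⊢
    exact vx_map hH hh hx
  · intro x hx
    rw [hS] at hx ⊢
    exact vx_map hH (H.inv_mem hh) hx
  · intro x _
    exact h.symm_apply_apply x
  · intro x _
    exact h.apply_symm_apply x
  · intro x _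
    rfl

/-- the vectors fixed by the stabilizer of `v` -/
theorem fixed (hF : S_FACES) (hC : S_CONE) (hP : IsPolytope P) (hH : Pres H P) (hT : PT 2 H P)
    (hc : c < 1) (hU : UV P) (hE : EC c P) {v : E (d + 1)} (hv : Vx P v) {x : E (d + 1)}
    (hx : ∀ h ∈ H, h v = v → h x = x) : ∃ α : ℝ, x = α • v := by
  have vv : ⟪v, v⟫ = 1 := by rw [real_inner_self_eq_norm_sq, hU v hv]; norm_num
  -- a neighbour
  obtain ⟨y0, hy0⟩ : ∃ y, Adj P v y := by
    by_contra hcon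
    push Not at hcon
    have h1 := Pool.Agent.T9h40.NK.span_nb hC hP hv (a := v) (fun y hy => absurd hy (hcon y))
    rw [h1, inner_zero_left] at vv
    exact zero_ne_one vv
  have hk : ∀ y, Adj P v y → ⟪y, x⟫ = ⟪y0, x⟫ := by
    intro y hy
    obtain ⟨h, hh, e1, e2⟩ := trans_adj hF hP hH hT hy0 hy
    rw [← e2]
    conv_lhs => rw [← hx h hh e1]
    exact h.inner_map_map _ _
  refine ⟨(⟪y0, x⟫ - ⟪v, x⟫) / (c - 1), ?_⟩
  have h2 := Pool.Agent.T9h40.NK.span_nb hC hP hv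
    (a := x - ((⟪y0, x⟫ - ⟪v, x⟫) / (c - 1)) • v) (fun y hy => by
      rw [inner_sub_right, real_inner_smul_right, inner_sub_left, inner_sub_left, hk y hy, vv,
        real_inner_comm v y, hE v y hy]
      have : c - 1 ≠ 0 := by linarith
      field_simp
      ring)
  exact sub_eq_zero.1 h2

/-- **TIGHT** -/
theorem tight (hF : S_FACES) (hC : S_CONE) (hP : IsPolytope P) (hH : Pres H P) (hT : PT 2 H P)
    (hc : c < 1) (hU : UV P) (hE : EC c P)
    (hvt : ∀ v w, Vx P v → Vx P w → ∃ h ∈ H, h v = w) (S : Finset (E (d + 1)))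
    (hS : ∀ v, v ∈ S ↔ Vx P v) (v : E (d + 1)) (hv : Vx P v) :
    (∑ u ∈ S, ⟪u, v⟫ ^ 2) * ((d : ℝ) + 1) = S.card := by
  obtain ⟨τ, hτ⟩ : ∃ τ : ℝ, τ = ∑ u ∈ S, ⟪u, v⟫ ^ 2 := ⟨_, rfl⟩
  rw [← hτ]
  have hτw : ∀ w, Vx P w → ∑ u ∈ S, ⟪u, w⟫ ^ 2 = τ := by
    intro w hw
    obtain ⟨h, hh, e⟩ := hvt v w hv hw
    rw [hτ, ← sum_H hH S hS (fun u => ⟪u, w⟫ ^ 2) hh]
    refine Finset.sum_congr rfl fun u _ => ?_
    rw [← e, h.inner_map_map]
  -- the frame operator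
  have hTcomm : ∀ h ∈ H, ∀ x, h (∑ u ∈ S, ⟪u, x⟫ • u) = ∑ u ∈ S, ⟪u, h x⟫ • u := by
    intro h hh x
    rw [map_sum, ← sum_H hH S hS (fun u => ⟪u, h x⟫ • u) hh]
    refine Finset.sum_congr rfl fun u _ => ?_
    rw [map_smul, h.inner_map_map]
  have hTv : ∀ w, Vx P w → ∑ u ∈ S, ⟪u, w⟫ • u = τ • w := by
    intro w hw
    obtain ⟨α, hα⟩ := fixed hF hC hP hH hT hc hU hE hw (x := ∑ u ∈ S, ⟪u, w⟫ • u)
      (fun h hh e => by rw [hTcomm h hh w, e])
    have ww : ⟪w, w⟫ = 1 := by rw [real_inner_self_eq_norm_sq, hU w hw]; norm_num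
    have h1 : α = τ := by
      have h2 := congrArg (fun x => ⟪x, w⟫) hα
      simp only [sum_inner, real_inner_smul_left] at h2
      rw [ww, mul_one] at h2
      rw [← h2, ← hτw w hw]
      exact Finset.sum_congr rfl fun u _ => (sq _).symm
    rw [hα, h1]
  have hadj : ∀ v w, Adj P v w → Vx P w := fun v w h =>
    ((hF (d + 1) P hP.1).2.2.2.2.2.2.2.2.1 v w h).2.1
  have hTx : ∀ x, ∑ u ∈ S, ⟪u, x⟫ • u = τ • x := by
    intro x
    have key : ∀ w, Vx P w → ⟪w, ∑ u ∈ S, ⟪u, x⟫ • u - τ • x⟫ = 0 := by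
      intro w hw
      rw [inner_sub_right, inner_sum, real_inner_smul_right]
      have h1 : ⟪∑ u ∈ S, ⟪u, w⟫ • u, x⟫ = τ * ⟪w, x⟫ := by
        rw [hTv w hw, real_inner_smul_left]
      rw [sum_inner] at h1
      rw [← h1, sub_eq_zero]
      refine Finset.sum_congr rfl fun u _ => ?_
      rw [real_inner_smul_right, real_inner_smul_left, real_inner_comm w u]
      ring
    have h2 := Pool.Agent.T9h40.NK.span_nb hC hP hv (a := ∑ u ∈ S, ⟪u, x⟫ • u - τ • x)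
      (fun y hy => by rw [inner_sub_left, key y (hadj v y hy), key v hv, sub_zero])
    exact sub_eq_zero.1 h2
  have hTq : ∀ x : E (d + 1), ∑ u ∈ S, ⟪u, x⟫ ^ 2 = τ * ‖x‖ ^ 2 := by
    intro x
    have h2 := congrArg (fun z => ⟪z, x⟫) (hTx x)
    simp only [sum_inner, real_inner_smul_left] at h2
    rw [real_inner_self_eq_norm_sq] at h2
    rw [← h2]
    exact Finset.sum_congr rfl fun u _ => sq _
  -- the trace
  let b := EuclideanSpace.basisFun (Fin (d + 1)) ℝ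
  have h3 : ∑ i, ∑ u ∈ S, ⟪u, b i⟫ ^ 2 = τ * ((d : ℝ) + 1) := by
    have : ∀ i, ∑ u ∈ S, ⟪u, b i⟫ ^ 2 = τ := fun i => by
      rw [hTq, b.orthonormal.1 i]
      ring
    rw [Finset.sum_congr rfl fun i _ => this i, Finset.sum_const, Finset.card_univ,
      Fintype.card_fin, nsmul_eq_mul]
    push_cast
    ring
  rw [← h3, Finset.sum_comm]
  have h4 : ∀ u ∈ S, ∑ i, ⟪u, b i⟫ ^ 2 = 1 := by
    intro u hu
    have h5 := b.sum_sq_norm_inner_left u
    rw [hU u ((hS u).1 hu)] at h5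
    have h6 : ∑ i, ⟪u, b i⟫ ^ 2 = ∑ i, ‖⟪u, b i⟫‖ ^ 2 := by
      refine Finset.sum_congr rfl fun i _ => ?_
      rw [Real.norm_eq_abs, sq_abs]
    rw [h6, h5]
    norm_num
  rw [Finset.sum_congr rfl h4, Finset.sum_const, nsmul_eq_mul, mul_one]

/-- **IMPT**: `PT 2` and `0 < c < 1/3` are impossible in dimension at least 9 -/
theorem impt (hF : S_FACES) (hC : S_CONE) (hd : 8 ≤ d) (hP : IsPolytope P) (hH : Pres H P)
    (hT : PT 2 H P) (hc0 : 0 < c) (hc : c < 1 / 3) (hU : UV P) (hE : EC c P) (hPC : PC c P)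
    (hvt : ∀ v w, Vx P v → Vx P w → ∃ h ∈ H, h v = w) (S : Finset (E (d + 1)))
    (hS : ∀ v, v ∈ S ↔ Vx P v) (hsum : ∑ v ∈ S, v = 0) : False := by
  classical
  rcases lt_or_ge c (1 / 6) with h6 | h6
  · exact imp7 hF hC (by omega) hP hc0 h6 hU hE hPC S hS hsum
  obtain ⟨-, -, -, -, hne, -, -, -, hadj, -⟩ := hF (d + 1) P hP.1
  obtain ⟨-, v, hv⟩ := hne (hP.2.mono interior_subset)
  have hti := tight hF hC hP hH hT (by linarith) hU hE hvt S hS v hv
  have vv : ⟪v, v⟫ = 1 := by rw [real_inner_self_eq_norm_sq, hU v hv]; norm_num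
  have hvS : v ∈ S := (hS v).2 hv
  have hnv : ¬ Adj P v v := fun h => h.1 rfl
  have hA : (S.erase v).filter (fun u => Adj P v u) = S.filter (fun u => Adj P v u) := by
    ext u
    simp only [Finset.mem_filter, Finset.mem_erase]
    constructor
    · rintro ⟨⟨_, h2⟩, h3⟩
      exact ⟨h2, h3⟩
    · rintro ⟨h2, h3⟩
      exact ⟨⟨fun h => hnv (by rw [h] at h3; exact h3), h2⟩, h3⟩
  have hN : (S.erase v).filter (fun u => ¬ Adj P v u) = NN P S v := by
    ext u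
    rw [mem_NN]
    simp only [Finset.mem_filter, Finset.mem_erase]
    tauto
  obtain ⟨-, hcard⟩ := bal hU hE S hS hsum v hv
  have hg := card_nb hC hP hv (S.filter (fun u => Adj P v u)) (fun y hy => by
    rw [Finset.mem_filter]
    exact ⟨(hS y).2 (hadj v y hy).2.1, hy⟩)
  -- the sums
  have e1 : ∑ u ∈ NN P S v, -⟪v, u⟫ = 1 + ((S.filter (fun u => Adj P v u)).card : ℝ) * c := by
    have e0 : ∑ u ∈ S, ⟪v, u⟫ = 0 := by rw [← inner_sum, hsum, inner_zero_right]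
    rw [← Finset.add_sum_erase S _ hvS, vv,
      ← Finset.sum_filter_add_sum_filter_not (S.erase v) (fun u => Adj P v u), hA, hN] at e0
    have h1 : ∑ u ∈ S.filter (fun u => Adj P v u), ⟪v, u⟫ =
        ((S.filter (fun u => Adj P v u)).card : ℝ) * c := by
      rw [← nsmul_eq_mul, ← Finset.sum_const]
      exact Finset.sum_congr rfl fun u hu => hE v u (Finset.mem_filter.1 hu).2
    rw [h1] at e0
    rw [Finset.sum_neg_distrib]
    linarith
  have e2 : ∑ u ∈ S, ⟪u, v⟫ ^ 2 = 1 + ((S.filter (fun u => Adj P v u)).card : ℝ) * c ^ 2 +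
      ∑ u ∈ NN P S v, (-⟪v, u⟫) ^ 2 := by
    rw [← Finset.add_sum_erase S _ hvS, vv,
      ← Finset.sum_filter_add_sum_filter_not (S.erase v) (fun u => Adj P v u), hA, hN]
    have h1 : ∑ u ∈ S.filter (fun u => Adj P v u), ⟪u, v⟫ ^ 2 =
        ((S.filter (fun u => Adj P v u)).card : ℝ) * c ^ 2 := by
      rw [← nsmul_eq_mul, ← Finset.sum_const]
      refine Finset.sum_congr rfl fun u hu => ?_
      rw [real_inner_comm, hE v u (Finset.mem_filter.1 hu).2]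
    have h2 : ∑ u ∈ NN P S v, ⟪u, v⟫ ^ 2 = ∑ u ∈ NN P S v, (-⟪v, u⟫) ^ 2 := by
      refine Finset.sum_congr rfl fun u _ => ?_
      rw [real_inner_comm, neg_sq]
    rw [h1, h2]
    ring
  have hb : ∀ u ∈ NN P S v, 1 - 2 * c ≤ -⟪v, u⟫ := by
    intro u hu
    have h1 := (mem_NN S v u).1 hu
    have := Pool.Agent.T9h47.NK.kl hF hC hP (by linarith) hU hE hPC v u hv ((hS u).1 h1.1)
      h1.2.1.symm h1.2.2
    linarith
  have e3 : ((NN P S v).card : ℝ) * (1 - 2 * c) ≤ ∑ u ∈ NN P S v, -⟪v, u⟫ := by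
    rw [← nsmul_eq_mul]
    exact Finset.card_nsmul_le_sum _ _ _ hb
  have e4 : (1 - 2 * c) * ∑ u ∈ NN P S v, -⟪v, u⟫ ≤ ∑ u ∈ NN P S v, (-⟪v, u⟫) ^ 2 := by
    rw [Finset.mul_sum]
    refine Finset.sum_le_sum fun u hu => ?_
    rw [sq]
    have := hb u hu
    exact mul_le_mul_of_nonneg_right this (by linarith)
  rw [e1] at e3 e4
  rw [e2] at hti
  have hcard' : (S.card : ℝ) = 1 + ((S.filter (fun u => Adj P v u)).card : ℝ) +
      ((NN P S v).card : ℝ) := by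
    rw [hcard]
    push_cast
    ring
  rw [hcard'] at hti
  have hg' : (9 : ℝ) ≤ ((S.filter (fun u => Adj P v u)).card : ℝ) := by
    have : 9 ≤ (S.filter (fun u => Adj P v u)).card := by omega
    exact_mod_cast this
  have hd' : (9 : ℝ) ≤ (d : ℝ) + 1 := by
    have : (8 : ℝ) ≤ d := by exact_mod_cast hd
    linarith
  generalize ((S.filter (fun u => Adj P v u)).card : ℝ) = g at *
  generalize ((NN P S v).card : ℝ) = m at *
  generalize ∑ u ∈ NN P S v, (-⟪v, u⟫) ^ 2 = B at *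
  generalize (d : ℝ) + 1 = D at *
  have f0 : 0 < 1 - 2 * c := by linarith
  -- D (1 - 2c) (2 + g c) ≤ 2 + g
  have f1 : 1 + g * c ^ 2 + (1 - 2 * c) * (1 + g * c) ≤ 1 + g * c ^ 2 + B := by linarith
  have f2 : (1 + g * c ^ 2 + (1 - 2 * c) * (1 + g * c)) * D ≤ 1 + g + m := by
    rw [← hti]
    exact mul_le_mul_of_nonneg_right f1 (by linarith)
  have f3 : (1 + g * c ^ 2 + (1 - 2 * c) * (1 + g * c)) * D * (1 - 2 * c) ≤
      (1 - c) * (2 + g) := by
    have h1 := mul_le_mul_of_nonneg_right f2 f0.le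
    have h2 : (1 + g + m) * (1 - 2 * c) ≤ (1 - c) * (2 + g) := by nlinarith
    linarith
  have f4 : (1 + g * c ^ 2 + (1 - 2 * c) * (1 + g * c)) * D * (1 - 2 * c) =
      (1 - c) * (D * (1 - 2 * c) * (2 + g * c)) := by ring
  rw [f4] at f3
  have f5 : D * (1 - 2 * c) * (2 + g * c) ≤ 2 + g :=
    le_of_mul_le_mul_left f3 (by linarith)
  have f6 : (1 : ℝ) / 9 ≤ c * (1 - 2 * c) := by nlinarith
  have f7 : 1 ≤ D * (c * (1 - 2 * c)) := by nlinarith
  have f8 : 3 ≤ D * (1 - 2 * c) := by nlinarith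
  nlinarith

end Pool.Agent.T9h40.NK
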