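import Pool.Agent.T9h44.NK.SpecC

/-!
# Project NK (helper44): piece TRANS
-/

set_option autoImplicit false

open Set
open scoped RealInnerProductSpace

namespace Pool.Agent.T9h40.NK

open Pool.Agent.T9h98.DC Pool.Agent.T9h44.NK

variable {d : ℕ}

/-- the affine map of an isometry -/
noncomputable def aff (g : E d ≃ᵢ E d) : E d →ᵃ[ℝ] E d :=
  (g.toRealAffineIsometryEquiv.toAffineEquiv : E d →ᵃ[ℝ] E d)

theorem aff_coe (g : E d ≃ᵢ E d) : (aff g : E d → E d) = g := rfl

/-- the linear part of an isometry -/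
noncomputable def lin (g : E d ≃ᵢ E d) : E d ≃ₗᵢ[ℝ] E d :=
  g.toRealAffineIsometryEquiv.linearIsometryEquiv

theorem lin_apply (g : E d ≃ᵢ E d) (x y : E d) : g (x + y) = lin g x + g y :=
  g.toRealAffineIsometryEquiv.map_vadd y x

theorem iso_hull (g : E d ≃ᵢ E d) (s : Set (E d)) :
    g '' convexHull ℝ s = convexHull ℝ (g '' s) := by
  have := (aff g).image_convexHull s
  rwa [aff_coe] at this

theorem iso_polytope (g : E d ≃ᵢ E d) {P : Set (E d)} (h : IsPolytope P) :
    IsPolytope (g '' P) := by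
  classical
  obtain ⟨⟨s, hs⟩, hi⟩ := h
  refine ⟨⟨s.image g, ?_⟩, ?_⟩
  · rw [hs, iso_hull, Finset.coe_image]
  · have h1 : g '' interior P = interior (g '' P) := g.toHomeomorph.image_interior P
    rw [← h1]
    exact hi.image g

theorem iso_face (g : E d ≃ᵢ E d) {P F : Set (E d)} (hF : IsFace P F) :
    IsFace (g '' P) (g '' F) := by
  obtain ⟨hne, hexp⟩ := hF
  refine ⟨hne.image g, fun _ => ?_⟩
  obtain ⟨l, hl⟩ := hexp hne
  let L : E d ≃ₗᵢ[ℝ] E d := lin g
  have hL : ∀ x y : E d, L (x - y) = g x - g y := by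
    intro x y
    have := lin_apply g (x - y) y
    rw [sub_add_cancel] at this
    rw [this, add_sub_cancel_right]
  let l' : StrongDual ℝ (E d) := l.comp (L.symm.toContinuousLinearEquiv : E d →L[ℝ] E d)
  have hl' : ∀ x y : E d, l' (g x) - l' (g y) = l x - l y := by
    intro x y
    rw [← map_sub, ← hL, ← map_sub l]
    simp [l']
  refine ⟨l', ?_⟩
  ext z
  constructor
  · rintro ⟨x, hx, rfl⟩
    have hx' := hx
    rw [hl] at hx'
    refine ⟨mem_image_of_mem g hx'.1, ?_⟩
    rintro _ ⟨y, hy, rfl⟩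
    have h1 := hl' x y
    have h2 := hx'.2 y hy
    linarith
  · rintro ⟨⟨x, hx, rfl⟩, hmax⟩
    refine ⟨x, ?_, rfl⟩
    rw [hl]
    refine ⟨hx, fun y hy => ?_⟩
    have h1 := hl' x y
    have h2 := hmax (g y) (mem_image_of_mem g hy)
    linarith

theorem iso_dm (g : E d ≃ᵢ E d) (F : Set (E d)) : dm (g '' F) = dm F := by
  have h1 := (aff g).map_vectorSpan (s := F)
  rw [aff_coe] at h1
  unfold dm
  rw [← h1]
  exact LinearEquiv.finrank_map_eq g.toRealAffineIsometryEquiv.toAffineEquiv.linear (vectorSpan ℝ F)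

theorem iso_extreme (g : E d ≃ᵢ E d) {P : Set (E d)} (hg : g '' P = P) {x : E d}
    (hx : x ∈ P.extremePoints ℝ) : g x ∈ P.extremePoints ℝ := by
  have hgP : ∀ y, g y ∈ P → y ∈ P := by
    intro y hy
    rw [← hg] at hy
    obtain ⟨w, hw, hwy⟩ := hy
    rwa [← g.injective hwy]
  refine ⟨by rw [← hg]; exact mem_image_of_mem g hx.1, ?_⟩
  intro a ha b hb hab
  obtain ⟨a', rfl⟩ := g.surjective a
  obtain ⟨b', rfl⟩ := g.surjective b
  have h1 := image_openSegment ℝ (aff g) a' b'
  rw [aff_coe] at h1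
  rw [← h1] at hab
  obtain ⟨w, hw, hwx⟩ := hab
  have h2 : w = x := g.injective hwx
  rw [h2] at hw
  rw [hx.2 (hgP _ ha) (hgP _ hb) hw]

/-- a common fixed point of the symmetries of a polytope -/
theorem exists_centre {P : Set (E d)} (hP : IsPolytope P) :
    ∃ z : E d, ∀ g : E d ≃ᵢ E d, g '' P = P → g z = z := by
  classical
  have hfin : (P.extremePoints ℝ).Finite := by
    obtain ⟨⟨s, hs⟩, _⟩ := hP
    rw [hs]
    exact s.finite_toSet.subset extremePoints_convexHull_subset
  have hne : (P.extremePoints ℝ).Nonempty := by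
    have h1 : IsCompact P := by
      obtain ⟨⟨s, hs⟩, _⟩ := hP
      rw [hs]
      exact (s.finite_toSet).isCompact_convexHull ℝ
    exact h1.extremePoints_nonempty (hP.2.mono interior_subset)
  have hcard : (0 : ℝ) < (hfin.toFinset.card : ℝ) := by
    rw [Nat.cast_pos, Finset.card_pos, hfin.toFinset_nonempty]
    exact hne
  refine ⟨(hfin.toFinset.card : ℝ)⁻¹ • ∑ v ∈ hfin.toFinset, v, fun g hg => ?_⟩
  have h1 : hfin.toFinset.image g = hfin.toFinset := by
    refine Finset.eq_of_subset_of_card_le ?_ ?_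
    · intro y hy
      obtain ⟨x, hx, rfl⟩ := Finset.mem_image.1 hy
      rw [hfin.mem_toFinset] at hx ⊢
      exact iso_extreme g hg hx
    · rw [Finset.card_image_of_injective _ g.injective]
  have h2 : ∑ v ∈ hfin.toFinset, g v = ∑ v ∈ hfin.toFinset, v := by
    conv_rhs => rw [← h1]
    rw [Finset.sum_image (fun x _ y _ h => g.injective h)]
  have h3 : ∀ x, g x = lin g x + g 0 := by
    intro x
    have := lin_apply g x 0
    rwa [add_zero] at this
  have h4 : ∑ v ∈ hfin.toFinset, g v =
      lin g (∑ v ∈ hfin.toFinset, v) + (hfin.toFinset.card : ℝ) • g 0 := by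
    rw [Finset.sum_congr rfl (fun x _ => h3 x), Finset.sum_add_distrib, map_sum,
      Finset.sum_const, Nat.cast_smul_eq_nsmul]
  rw [h3, map_smul]
  have h5 : (hfin.toFinset.card : ℝ)⁻¹ • ((hfin.toFinset.card : ℝ) • g 0) = g 0 := by
    rw [smul_smul, inv_mul_cancel₀ hcard.ne', one_smul]
  conv_lhs => rw [← h5]
  rw [← smul_add, ← h4, h2]

theorem add_apply (z x : E d) : (IsometryEquiv.addRight z : E d ≃ᵢ E d) x = x + z := rfl

theorem reg_add (z : E d) {P : Set (E d)} (h : Reg P) :
    Reg ((IsometryEquiv.addRight z : E d ≃ᵢ E d) '' P) := by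
  rcases h with ⟨v, s, hs, hv, hP⟩ | ⟨c, r, b, hr, hP⟩ | ⟨c, r, b, hr, hP⟩
  · refine Or.inl ⟨fun i => v i + z, s, hs, fun i j hij => ?_, ?_⟩
    · rw [dist_add_right, hv i j hij]
    · rw [hP, iso_hull, ← range_comp]
      rfl
  · refine Or.inr (Or.inl ⟨c + z, r, b, hr, ?_⟩)
    rw [hP, iso_hull]
    congr 1
    ext x
    simp only [mem_image, mem_ofPred_eq, add_apply]
    constructor
    · rintro ⟨y, ⟨i, hi⟩, rfl⟩
      refine ⟨i, ?_⟩
      rcases hi with rfl | rfl
      · left
        abel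
      · right
        abel
    · rintro ⟨i, hi⟩
      rcases hi with rfl | rfl
      · exact ⟨c + r • b i, ⟨i, Or.inl rfl⟩, by abel⟩
      · exact ⟨c - r • b i, ⟨i, Or.inr rfl⟩, by abel⟩
  · refine Or.inr (Or.inr ⟨c + z, r, b, hr, ?_⟩)
    rw [hP]
    ext x
    simp only [mem_image, mem_ofPred_eq, add_apply]
    constructor
    · rintro ⟨y, hy, rfl⟩ i
      rw [add_sub_add_right_eq_sub]
      exact hy i
    · intro hx
      refine ⟨x - z, fun i => ?_, sub_add_cancel x z⟩
      have := hx i
      rwa [← sub_sub_sub_cancel_right x (c + z) z, add_sub_cancel_right] at this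

theorem trans : S_TRANS := by
  classical
  intro d k P hP hk
  obtain ⟨z, hz⟩ := exists_centre hP.1
  set τ : E d ≃ᵢ E d := IsometryEquiv.addRight z with hτ
  have hτx : ∀ x, τ x = x + z := fun x => rfl
  obtain ⟨P', hP'⟩ : ∃ P' : Set (E d), τ '' P' = P := ⟨τ.symm '' P, by
    rw [← image_comp]
    simp⟩
  have hpoly : IsPolytope P' := by
    have h1 := iso_polytope τ.symm hP.1
    rw [← hP', ← image_comp] at h1
    simpa using h1
  -- linear part
  have key : ∀ g : E d ≃ᵢ E d, g '' P = P → ∀ A B : Set (E d), g '' (τ '' A) = τ '' B →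
      lin g '' A = B := by
    intro g hg A B hAB
    have h1 : τ '' (lin g '' A) = g '' (τ '' A) := by
      rw [image_image, image_image]
      refine image_congr (fun x _ => ?_)
      rw [hτx, hτx, lin_apply, hz g hg]
    rw [hAB] at h1
    exact τ.injective.image_injective h1
  let H : Subgroup (E d ≃ₗᵢ[ℝ] E d) :=
    { carrier := {h | h '' P' = P'}
      one_mem' := by
        show (1 : E d ≃ₗᵢ[ℝ] E d) '' P' = P'
        exact image_id P'
      mul_mem' := by
        intro a b ha hb
        show (a * b) '' P' = P'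
        have : ((a * b : E d ≃ₗᵢ[ℝ] E d) : E d → E d) = a ∘ b := rfl
        rw [this, image_comp, show b '' P' = P' from hb, show a '' P' = P' from ha]
      inv_mem' := by
        intro a ha
        show (a⁻¹ : E d ≃ₗᵢ[ℝ] E d) '' P' = P'
        have h1 : a '' P' = P' := ha
        have : ((a⁻¹ : E d ≃ₗᵢ[ℝ] E d) : E d → E d) = a.symm := rfl
        rw [this]
        conv_lhs => rw [← h1]
        rw [← image_comp]
        simp }
  refine ⟨P', H, hpoly, fun h hh => hh, ?_, ?_⟩
  · intro Φ
    let toFlag : Ch P' d → Flag P := fun Ψ =>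
      { face := fun i => τ '' Ψ.face i
        isFace := fun i => by
          rw [← hP']
          exact iso_face τ (Ψ.isFace i)
        dim := fun i => by
          have := iso_dm τ (Ψ.face i)
          rw [Ψ.dim i] at this
          exact this
        mono := fun i j hij => image_mono (Ψ.mono hij) }
    have hfin : Finite (Quotient (flagSetoid P)) := Nat.finite_of_card_ne_zero (by
      rw [hP.2]
      exact hk.ne')
    have := Fintype.ofFinite (Quotient (flagSetoid P))
    have hlt : Fintype.card (Quotient (flagSetoid P)) < Fintype.card (Fin (k + 1)) := by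
      rw [Fintype.card_fin, ← Nat.card_eq_fintype_card, hP.2]
      exact Nat.lt_succ_self k
    obtain ⟨i, j, hij, hq⟩ := Fintype.exists_ne_map_eq_of_card_lt
      (fun i => (Quotient.mk (flagSetoid P) (toFlag (Φ i)))) hlt
    obtain ⟨g, hg, hgi⟩ := Quotient.exact hq
    refine ⟨i, j, hij, lin g, ?_, fun l => key g hg _ _ (hgi l)⟩
    exact key g hg P' P' (by rw [hP']; exact hg)
  · intro h
    rw [← hP']
    exact reg_add z h

end Pool.Agent.T9h40.NK
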